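import Pool.Agent.Helper9.PP.Num
import Pool.Agent.Helper9.PP.Wrd
import Pool.Agent.Helper9.PP.Min
import Pool.Agent.Helper80.PP.Core
import Pool.Agent.Helper63.PP.Va
import Pool.Agent.Helper22.PP.Mod
import Pool.Agent.Helper85.PP.Obs
import Pool.Agent.Helper81.PP.Sec
import Pool.Agent.Helper43.PP.Grow
import Pool.Agent.Helper4.PP.Jets
import Pool.Agent.Helper45.PP.Pos

/-!
Fujita's conjecture on very ampleness for the fibre products of projective bundles over curves, with
one ample line bundle less than conjectured.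
-/

set_option autoImplicit false

namespace Pool.Agent.Results.MP_e09b14_ag.FibreProductsOfProjectiveBundles

open Pool.Agent.Helper9.FJ Pool.Agent.Helper9.PP FF

/-- The degree of a divisor of the curve. -/
def degree {K : Type} [Field K] [Algebra ℂ K] (D : Place ℂ K →₀ ℤ) : ℤ := D.sum fun _ n => n

/-- The canonical divisors of the curve, characterised by the theorem of Riemann and Roch
`l(D) - l(W - D) = deg D + 1 - g`. -/
def Canonical {K : Type} [Field K] [Algebra ℂ K] [IsFF ℂ K] (W : Place ℂ K →₀ ℤ) : Prop :=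
  ∃ γ : ℤ, ∀ D : Place ℂ K →₀ ℤ, ell D - ell (W - D) = degree D - γ

/-- Let `E j`, `j < l`, be at least two vector bundles of ranks `r j ≥ 2` on a smooth projective
curve `C` with the function field `K`, and `X` the fibre product over `C` of the projective bundles
`P(E j)`, a variety of dimension `n = 1 + ∑ (r j - 1)`, with the projection `π : X → C`.  Let
`A i = O(a i 1, ..., a i l) ⊗ π^* O(b i)`, `i < m`, be ample line bundles on `X`, and
`m ≥ max (r j) + 2` (in particular all `m ≥ n + 1` are allowed). Then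
`K_X + ∑ A i = O(∑ a i j - r j) ⊗ π^* (K_C + ∑ det (E j) + ∑ b i)` is very ample. -/
theorem result {K : Type} [Field K] [Algebra ℂ K] [IsFF ℂ K] {l : ℕ} (hl : 2 ≤ l)
    {r : Fin l → ℕ} (hr : ∀ j, 2 ≤ r j) (E : ∀ j, Bundle K (r j)) {W : Place ℂ K →₀ ℤ}
    (hW : Canonical W) {m : ℕ} (hm : ∀ j, r j + 2 ≤ m) (a : Fin m → Fin l → ℕ)
    (b : Fin m → (Place ℂ K →₀ ℤ)) (hA : ∀ i, IsAmpleM E (a i) (b i)) :
    ∃ c : Fin l → ℕ, (∀ j, c j + r j = ∑ i, a i j) ∧
      VeryAmpleM E c (W + ∑ j, (E j).detDiv + ∑ i, b i) := by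
  have hW' : IsCanonical W := by
    obtain ⟨γ, hγ⟩ := hW
    refine ⟨γ, fun D => ?_⟩
    rw [hγ D, degree, ddeg]
    congr 1
    refine Finsupp.sum_congr fun P _ => ?_
    rw [Pool.Agent.Helper90.FJ.deg_one, Nat.cast_one, mul_one]
  have va : S_VA := Pool.Agent.Helper63.PP.va (Pool.Agent.Helper80.PP.core
    Pool.Agent.Helper85.PP.obs wrd Pool.Agent.Helper22.PP.p_mod ten bil)
  have pos : S_POS := Pool.Agent.Helper45.PP.pos min' (Pool.Agent.Helper81.PP.sec wrd)
    Pool.Agent.Helper43.PP.grow Pool.Agent.Helper4.PP.jets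
  obtain ⟨μ, hμ, hpos⟩ := pos E hr
  have hP := fun i => hpos (a i) (b i) (hA i)
  obtain ⟨n, rfl⟩ : ∃ n, m = n + 2 := ⟨m - 2, by have := hm ⟨0, by omega⟩; omega⟩
  have hsum : ∀ j, r j ≤ ∑ i, a i j := by
    intro j
    have h1 : ∑ i : Fin (n + 2), 1 ≤ ∑ i, a i j := Finset.sum_le_sum fun i _ => (hP i).1 j
    rw [Finset.sum_const, Finset.card_univ, Fintype.card_fin, smul_eq_mul, mul_one] at h1
    have := hm j
    omega
  have hc : ∀ j, (∑ i, a i j - r j) + r j = ∑ i, a i j := fun j => Nat.sub_add_cancel (hsum j)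
  refine ⟨fun j => ∑ i, a i j - r j, hc, mainM va hr E hW' ?_ (fun j => ?_) a b μ hμ hP _ hc⟩
  · have h1 := hm ⟨0, by omega⟩
    have h2 := hr ⟨0, by omega⟩
    omega
  · have := hm j
    omega

end Pool.Agent.Results.MP_e09b14_ag.FibreProductsOfProjectiveBundles
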