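import Pool.Agent.Helper9.FL.Defs2
import Pool.Agent.Helper9.FL.Main
import Pool.Agent.Helper64.FL.Wdg
import Pool.Agent.Helper64.FL.Slp
import Pool.Agent.Helper2.FL.Den
import Pool.Agent.Helper2.FL.FDeg
import Pool.Agent.Helper31.FL.GrowG
import Pool.Agent.Helper31.FL.Fsec
import Pool.Agent.Helper80.FL.Fpos
import Pool.Agent.Helper66.FL.HN
import Pool.Agent.Helper92.FL.FJets
import Pool.Agent.Helper1.FL.Up
import Pool.Agent.Helper80.PP.Core
import Pool.Agent.Helper63.PP.Va
import Pool.Agent.Helper22.PP.Mod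
import Pool.Agent.Helper85.PP.Obs

/-!
Fujita's conjecture on very ampleness for the bundles of partial flags over curves, with a number of
ample line bundles much smaller than conjectured.
-/

set_option autoImplicit false

namespace Pool.Agent.Results.MP_e09b14_ag.FlagBundlesOverCurves

open Pool.Agent.Helper9.FJ Pool.Agent.Helper9.FL FF

/-- The degree of a divisor of the curve. -/
def degree {K : Type} [Field K] [Algebra ℂ K] (D : Place ℂ K →₀ ℤ) : ℤ := D.sum fun _ n => n

/-- The canonical divisors of the curve, characterised by the theorem of Riemann and Roch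
`l(D) - l(W - D) = deg D + 1 - g`. -/
def Canonical {K : Type} [Field K] [Algebra ℂ K] [IsFF ℂ K] (W : Place ℂ K →₀ ℤ) : Prop :=
  ∃ γ : ℤ, ∀ D : Place ℂ K →₀ ℤ, ell D - ell (W - D) = degree D - γ

/-- Let `E` be a vector bundle of rank `r` on a smooth projective curve `C` with the function field
`K`, `0 < k 0 < ... < k (l - 1) < r`, `l ≥ 2`, and `X` the bundle of the flags of quotients of the
dimensions `k 0, ..., k (l - 1)` of the fibres of `E`, with the projection `π : X → C`; put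
`k (-1) = 0` and `k l = r`.  Let `A i = O(a i 0, ..., a i (l - 1)) ⊗ π^* O(b i)`, `i < m`, be ample
line bundles on `X`, and `m ≥ k (j + 1) - k (j - 1) + 2` for all `j`.  Then
`K_X + ∑ A i = O(∑ a i j - (k (j + 1) - k (j - 1))) ⊗ π^* (K_C + k (l - 1) det E + ∑ b i)` is very
ample. -/
theorem result {K : Type} [Field K] [Algebra ℂ K] [IsFF ℂ K] {r l : ℕ} (hl : 2 ≤ l)
    (k : Fin l → ℕ) (hk : StrictMono k) (hk0 : ∀ j, 0 < k j) (hkr : ∀ j, k j < r)
    (E : Bundle K r) {W : Place ℂ K →₀ ℤ} (hW : Canonical W) {m : ℕ}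
    (hm : ∀ j, nx k r j - pv k j + 2 ≤ m) (a : Fin m → Fin l → ℕ)
    (b : Fin m → (Place ℂ K →₀ ℤ)) (hA : ∀ i, IsAmple k E (a i) (b i)) :
    ∃ c : Fin l → ℕ, (∀ j, c j + (nx k r j - pv k j) = ∑ i, a i j) ∧
      VeryAmple k E c (W + k ⟨l - 1, by omega⟩ • E.detDiv + ∑ i, b i) := by
  have hW' : IsCanonical W := by
    obtain ⟨γ, hγ⟩ := hW
    refine ⟨γ, fun D => ?_⟩
    rw [hγ D, degree, ddeg]
    congr 1
    refine Finsupp.sum_congr fun P _ => ?_
    rw [Pool.Agent.Helper90.FJ.deg_one, Nat.cast_one, mul_one]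
  have va : Pool.Agent.Helper9.PP.S_VA := Pool.Agent.Helper63.PP.va (Pool.Agent.Helper80.PP.core
    Pool.Agent.Helper85.PP.obs Pool.Agent.Helper9.PP.wrd Pool.Agent.Helper22.PP.p_mod
    Pool.Agent.Helper9.PP.ten Pool.Agent.Helper9.PP.bil)
  have fsec : S_FSEC := Pool.Agent.Helper31.FL.fsec (Pool.Agent.Helper64.FL.slp mix)
    Pool.Agent.Helper2.FL.den
  have fpos : S_FPOS := Pool.Agent.Helper80.FL.fpos fsec Pool.Agent.Helper31.FL.growG
    Pool.Agent.Helper92.FLJ.fjets Pool.Agent.Helper2.FL.fdeg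
  exact mainThm va (Pool.Agent.Helper64.FL.wdg mix) Pool.Agent.Helper1.FL.up
    Pool.Agent.Helper66.FL.hn fpos (by omega) k hk hk0 hkr E hW' hm a b hA

end Pool.Agent.Results.MP_e09b14_ag.FlagBundlesOverCurves
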