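import Pool.Agent.Helper9.GR.Main
import Pool.Agent.Helper9.GR.AmpleMain
import Pool.Agent.Helper42.GR.Main

/-!
Fujita's conjecture on very ampleness for Grassmann bundles over curves, for sums of `r + 2` ample
line bundles.
-/

set_option autoImplicit false

namespace Pool.Agent.Results.MP_e09b14_ag.GrassmannBundlesOverCurves

open Pool.Agent.Helper9.FJ Pool.Agent.Helper9.GR FF

/-- The degree of a divisor of the curve. -/
def degree {K : Type} [Field K] [Algebra ℂ K] (D : Place ℂ K →₀ ℤ) : ℤ := D.sum fun _ n => n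

/-- The canonical divisors of the curve, characterised by the theorem of Riemann and Roch
`l(D) - l(W - D) = deg D + 1 - g`. -/
def Canonical {K : Type} [Field K] [Algebra ℂ K] [IsFF ℂ K] (W : Place ℂ K →₀ ℤ) : Prop :=
  ∃ γ : ℤ, ∀ D : Place ℂ K →₀ ℤ, ell D - ell (W - D) = degree D - γ

/-- Let `E` be a vector bundle of rank `r` on a smooth projective curve `C` with the function
field `K`, `2 ≤ k ≤ r - 2`, and `X = Gr(k, E)` the bundle of the `k`-dimensional quotients of the
fibres of `E`, a variety of dimension `n = k (r - k) + 1`, with the projection `π : X → C`.  Let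
`A i = O(a i) ⊗ π^* O(b i)`, `i < m`, be ample line bundles on `X`, and `m ≥ r + 2` (in particular
all `m ≥ n + 2` are allowed). Then
`K_X + ∑ A i = O(∑ a i - r) ⊗ π^* (K_C + k det E + ∑ b i)` is very ample. -/
theorem result {K : Type} [Field K] [Algebra ℂ K] [IsFF ℂ K] {r k : ℕ} (hk : 2 ≤ k)
    (hkr : k + 2 ≤ r) (E : Bundle K r) {W : Place ℂ K →₀ ℤ} (hW : Canonical W) {m : ℕ}
    (hm : r + 2 ≤ m) (a : Fin m → ℕ) (b : Fin m → (Place ℂ K →₀ ℤ))
    (hA : ∀ i, IsAmpleG k E (a i) (b i)) :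
    ∃ c, c + r = ∑ i, a i ∧ VeryAmpleG k E c (W + k • E.detDiv + ∑ i, b i) := by
  have hW' : IsCanonical W := by
    obtain ⟨γ, hγ⟩ := hW
    refine ⟨γ, fun D => ?_⟩
    rw [hγ D, degree, ddeg]
    congr 1
    refine Finsupp.sum_congr fun P _ => ?_
    rw [Pool.Agent.Helper90.FJ.deg_one, Nat.cast_one, mul_one]
  have hP : ∀ i, PosG k E (a i) (b i) := fun i =>
    posG_of_ample Pool.Agent.Helper42.GR.a1 (by omega) (by omega) (hA i)
  have h1 : ∑ i : Fin m, 1 ≤ ∑ i, a i := Finset.sum_le_sum fun i _ => (hP i).1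
  rw [Finset.sum_const, Finset.card_univ, Fintype.card_fin, smul_eq_mul, mul_one] at h1
  have h2 : (∑ i, a i - r) + r = ∑ i, a i := by omega
  exact ⟨∑ i, a i - r, h2, mainG (by omega) (by omega) E hW' hm a b hP _ h2⟩

end Pool.Agent.Results.MP_e09b14_ag.GrassmannBundlesOverCurves
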