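import Pool.Agent.Helper9.FJ.Main
import Pool.Agent.Helper90.FJ.Ample

/-!
Fujita's conjecture on very ampleness for projective bundles over curves, for sums of `n + 2` ample
line bundles.
-/

set_option autoImplicit false

namespace Pool.Agent.Results.MP_e09b14_ag.ProjectiveBundlesOverCurves

open Pool.Agent.Helper9.FJ FF

variable {K : Type} [Field K] [Algebra ℂ K] [IsFF ℂ K]

/-- The degree of a divisor of the curve. -/
def degree (D : Place ℂ K →₀ ℤ) : ℤ := D.sum fun _ n => n

/-- The canonical divisors of the curve, characterised by the theorem of Riemann and Roch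
`l(D) - l(W - D) = deg D + 1 - g`. -/
def Canonical (W : Place ℂ K →₀ ℤ) : Prop :=
  ∃ γ : ℤ, ∀ D : Place ℂ K →₀ ℤ, ell D - ell (W - D) = degree D - γ

theorem degree_eq (D : Place ℂ K →₀ ℤ) : degree D = ddeg D := by
  rw [degree, ddeg]
  refine Finsupp.sum_congr fun P _ => ?_
  rw [Pool.Agent.Helper90.FJ.deg_one, Nat.cast_one, mul_one]

/-- Let `E` be a vector bundle of rank `r ≥ 2` on a smooth projective curve `C` with the function
field `K`, and `X = P(E)`, a variety of dimension `r`, with the projection `π : X → C`.  Let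
`A i = O(a i) ⊗ π^* O(b i)`, `i < m`, be ample line bundles on `X`, and `m ≥ r + 2`.  Then
`K_X + ∑ A i = O(∑ a i - r) ⊗ π^* (K_C + det E + ∑ b i)` is very ample. -/
theorem result {K : Type} [Field K] [Algebra ℂ K] [IsFF ℂ K] {r : ℕ} (hr : 2 ≤ r)
    (E : Bundle K r) {W : Place ℂ K →₀ ℤ} (hW : Canonical W) {m : ℕ} (hm : r + 2 ≤ m)
    (a : Fin m → ℕ) (b : Fin m → (Place ℂ K →₀ ℤ)) (hA : ∀ i, IsAmple E (a i) (b i)) :
    ∃ k, k + r = ∑ i, a i ∧ VeryAmple E k (W + E.detDiv + ∑ i, b i) := by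
  have hW' : IsCanonical W := by
    obtain ⟨γ, hγ⟩ := hW
    exact ⟨γ, fun D => by rw [hγ D, degree_eq]⟩
  have hP : ∀ i, Pos E (a i) (b i) := fun i => Pool.Agent.Helper90.FJ.pos_of_ample hr (hA i)
  have h1 : ∑ i : Fin m, 1 ≤ ∑ i, a i := Finset.sum_le_sum fun i _ => (hP i).1
  rw [Finset.sum_const, Finset.card_univ, Fintype.card_fin, smul_eq_mul, mul_one] at h1
  have h2 : (∑ i, a i - r) + r = ∑ i, a i := by omega
  exact ⟨∑ i, a i - r, h2, main hr E hW' hm a b hP _ h2⟩

end Pool.Agent.Results.MP_e09b14_ag.ProjectiveBundlesOverCurves
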